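import Pool.Agent.R745.CDX.Defs

/-! Constant distance code pairs for alphabets of `6` and `7` letters: the twin case. -/

set_option autoImplicit false

namespace R745CDX

open Finset H825CD

namespace XTWp

/-- bound of a product, `M = 1 / 9` -/
theorem pb5 (P : ℝ) (h1 : P ≤ 4 / 81) (h2 : P ≤ 1 / 81 + 1 / 3 * P + 2 * P ^ 2) :
    P ≤ 1 / 50 := by
  by_contra h
  push Not at h
  nlinarith [mul_nonneg (sub_nonneg.mpr h.le) (sub_nonneg.mpr h1)]

/-- bound of a product, `M = 1 / 12` -/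
theorem pb6 (P : ℝ) (h1 : P ≤ 4 / 144) (h2 : P ≤ 1 / 144 + 1 / 3 * P + 4 * P ^ 2) :
    P ≤ 23 / 2000 := by
  by_contra h
  push Not at h
  nlinarith [mul_nonneg (sub_nonneg.mpr h.le) (sub_nonneg.mpr h1)]

/-- both factors bounded -/
theorem two5 (X Y κ lam : ℝ) (hX : 0 ≤ X) (hY : 0 ≤ Y) (hX2 : X ≤ 2 / 9) (hY2 : Y ≤ 2 / 9)
    (hκ : 0 ≤ κ) (hl : 0 ≤ lam) (hs : κ + lam ≤ 3) (hp : κ * lam ≤ 2)
    (h1 : X ≤ 1 / 9 + lam * (X * Y)) (h2 : Y ≤ 1 / 9 + κ * (X * Y)) :
    X * Y ≤ 1 / 50 := by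
  have hP : 0 ≤ X * Y := mul_nonneg hX hY
  apply pb5
  · calc X * Y ≤ 2 / 9 * (2 / 9) := mul_le_mul hX2 hY2 hY (by norm_num)
      _ = 4 / 81 := by norm_num
  · have h3 : X * Y ≤ (1 / 9 + lam * (X * Y)) * (1 / 9 + κ * (X * Y)) :=
      mul_le_mul h1 h2 hY (by positivity)
    have h4 : (1 / 9 + lam * (X * Y)) * (1 / 9 + κ * (X * Y)) =
        1 / 81 + (κ + lam) * (1 / 9 * (X * Y)) + (κ * lam) * (X * Y) ^ 2 := by ring
    have h5 : (κ + lam) * (1 / 9 * (X * Y)) ≤ 3 * (1 / 9 * (X * Y)) :=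
      mul_le_mul_of_nonneg_right hs (by positivity)
    have h6 : (κ * lam) * (X * Y) ^ 2 ≤ 2 * (X * Y) ^ 2 :=
      mul_le_mul_of_nonneg_right hp (by positivity)
    linarith

/-- both factors bounded -/
theorem two6 (X Y κ lam : ℝ) (hX : 0 ≤ X) (hY : 0 ≤ Y) (hX2 : X ≤ 2 / 12) (hY2 : Y ≤ 2 / 12)
    (hκ : 0 ≤ κ) (hl : 0 ≤ lam) (hs : κ + lam ≤ 4) (hp : κ * lam ≤ 4)
    (h1 : X ≤ 1 / 12 + lam * (X * Y)) (h2 : Y ≤ 1 / 12 + κ * (X * Y)) :
    X * Y ≤ 23 / 2000 := by
  have hP : 0 ≤ X * Y := mul_nonneg hX hY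
  apply pb6
  · calc X * Y ≤ 2 / 12 * (2 / 12) := mul_le_mul hX2 hY2 hY (by norm_num)
      _ = 4 / 144 := by norm_num
  · have h3 : X * Y ≤ (1 / 12 + lam * (X * Y)) * (1 / 12 + κ * (X * Y)) :=
      mul_le_mul h1 h2 hY (by positivity)
    have h4 : (1 / 12 + lam * (X * Y)) * (1 / 12 + κ * (X * Y)) =
        1 / 144 + (κ + lam) * (1 / 12 * (X * Y)) + (κ * lam) * (X * Y) ^ 2 := by ring
    have h5 : (κ + lam) * (1 / 12 * (X * Y)) ≤ 4 * (1 / 12 * (X * Y)) :=
      mul_le_mul_of_nonneg_right hs (by positivity)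
    have h6 : (κ * lam) * (X * Y) ^ 2 ≤ 4 * (X * Y) ^ 2 :=
      mul_le_mul_of_nonneg_right hp (by positivity)
    linarith

/-- the final inequality -/
theorem fin {q m k l K z w bi U11 P11 W10 r : ℝ} (hq : 0 < q) (hk : 0 < k) (hK : 1 ≤ K)
    (hz : 0 < z) (hP11 : 0 ≤ P11) (hU11 : 0 ≤ U11) (hW : 0 ≤ W10)
    (hr0 : 0 ≤ r) (hr : 1 - l * w - bi ≤ r) (hz1 : z ≤ U11 + K * P11)
    (hq5 : q * ((U11 + P11) * (r + W10)) ≤ m) (hkm : k * m < k * z - l * (z * w)) :
    k * q * (1 - l * w - bi) < K * (k - l * w) := by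
  have h1 : z ≤ K * (U11 + P11) := by nlinarith
  have h2 : (U11 + P11) * r ≤ (U11 + P11) * (r + W10) :=
    mul_le_mul_of_nonneg_left (by linarith) (by positivity)
  have h3 : q * ((U11 + P11) * r) ≤ m :=
    le_trans (mul_le_mul_of_nonneg_left h2 hq.le) hq5
  have h4 : q * (z * r) ≤ K * m := by
    have h5 : z * r ≤ K * (U11 + P11) * r := mul_le_mul_of_nonneg_right h1 hr0
    have h6 : q * (z * r) ≤ q * (K * (U11 + P11) * r) := mul_le_mul_of_nonneg_left h5 hq.le
    have h7 : K * (q * ((U11 + P11) * r)) ≤ K * m := mul_le_mul_of_nonneg_left h3 (by linarith)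
    have h8 : q * (K * (U11 + P11) * r) = K * (q * ((U11 + P11) * r)) := by ring
    linarith
  have h9 : k * (q * (z * r)) ≤ k * (K * m) := mul_le_mul_of_nonneg_left h4 hk.le
  have h10 : K * (k * m) < K * (k * z - l * (z * w)) :=
    mul_lt_mul_of_pos_left hkm (by linarith)
  have h11 : z * (k * q * r) < z * (K * (k - l * w)) := by
    have e1 : k * (q * (z * r)) = z * (k * q * r) := by ring
    have e2 : k * (K * m) = K * (k * m) := by ring
    have e3 : K * (k * z - l * (z * w)) = z * (K * (k - l * w)) := by ring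
    linarith
  have h12 : k * q * r < K * (k - l * w) := lt_of_mul_lt_mul_left h11 hz.le
  have h13 : k * q * (1 - l * w - bi) ≤ k * q * r :=
    mul_le_mul_of_nonneg_left hr (by positivity)
  linarith

/-- a factor bounded -/
theorem half {x a c m : ℝ} (hx : 0 ≤ x) (ha : a ≤ 1 / 2) (hc : 0 ≤ c)
    (h : x * (1 - a + c) ≤ m) : x ≤ 2 * m := by
  have h1 : x * (1 / 2) ≤ x * (1 - a + c) := mul_le_mul_of_nonneg_left (by linarith) hx
  linarith

/-- a factor bounded by the product -/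
theorem lin {m Y a s zP K κ : ℝ} (hY : 0 ≤ Y) (hs : 0 ≤ s) (hz : 0 ≤ zP) (h1 : 1 ≤ κ)
    (h2 : K - 1 ≤ κ) (ha : a = s + K * zP) (h : Y * (1 - a + zP) ≤ m) :
    Y ≤ m + κ * ((s + zP) * Y) := by
  have e1 : s ≤ κ * s := by nlinarith
  have e2 : (K - 1) * zP ≤ κ * zP := mul_le_mul_of_nonneg_right h2 hz
  have h3 : Y * (1 - κ * (s + zP)) ≤ Y * (1 - a + zP) :=
    mul_le_mul_of_nonneg_left (by rw [ha]; linarith) hY
  have h4 : Y * (1 - κ * (s + zP)) = Y - κ * ((s + zP) * Y) := by ring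
  linarith

/-- common facts -/
structure Facts (Q : ℕ) (m : ℝ) (k l K L : ℕ) (z w bi X Y : ℝ) : Prop where
  hm0 : 0 < m
  hm : (qb Q : ℝ) * m ≤ 1
  hk : 1 ≤ k
  hl : 1 ≤ l
  hkl : k + l ≤ Q
  hKL : K + L ≤ Q
  hKQ : K < Q
  hz : 0 < z
  hw : 0 < w
  hz2 : z ≤ 2 * m
  hw2 : w ≤ 2 * m
  hJ1 : z ≤ m + (l - 1) * (z * w)
  hJ2 : w ≤ m + (k - 1) * (z * w)
  hJ3 : Q * m < k * z + l * w - k * l * (z * w)
  hX : 0 ≤ X
  hY : 0 ≤ Y
  hX2 : X ≤ 2 * m
  hY2 : Y ≤ 2 * m
  hbi : bi ≤ max 1 (L : ℝ) * Y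
  hXl : ∀ c : ℝ, 1 ≤ c → (L : ℝ) - 1 ≤ c → X ≤ m + c * (X * Y)
  hYl : ∀ c : ℝ, 1 ≤ c → (K : ℝ) - 1 ≤ c → Y ≤ m + c * (X * Y)
  hK1 : 2 ≤ k → m < z → 2 ≤ K
  hfin : 2 ≤ K → (k : ℝ) * m < k * z - l * (z * w) →
    (k : ℝ) * (qb Q : ℝ) * (1 - l * w - bi) < K * (k - l * w)

theorem facts {Q : ℕ} (hQ : 0 < qb Q) {m : ℝ} {k l K L : ℕ} {aj bj zj wj ai bi s zP t wP
    U11 P11 W10 V01 V11 R01 R11 p r : ℝ}
    (h : FinX Q m k l K L aj bj zj wj ai bi s zP t wP 0 0 U11 0 P11 W10 V01 V11 R01 R11 p r) :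
    Facts Q m k l K L zj wj bi (s + zP) (t + wP) := by
  have hkp : (0 : ℝ) < k := by exact_mod_cast h.hk
  have hlp : (0 : ℝ) < l := by exact_mod_cast h.hl
  have hz : 0 < zj := by
    have := h.haj0
    rw [h.haj] at this
    exact (mul_pos_iff_of_pos_left hkp).mp this
  have hw : 0 < wj := by
    have := h.hbj0
    rw [h.hbj] at this
    exact (mul_pos_iff_of_pos_left hlp).mp this
  have hX : 0 ≤ s + zP := add_nonneg h.hs h.hzP
  have hY : 0 ≤ t + wP := add_nonneg h.ht h.hwP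
  have hX2 : s + zP ≤ 2 * m := half hX h.hbi2 h.hwP h.hI1
  have hY2 : t + wP ≤ 2 * m := half hY h.hai2 h.hzP h.hI2
  have hL0 : s = 0 ∧ t = 0 → 1 ≤ L := by
    rintro ⟨-, h2⟩
    by_contra h3
    have h4 : L = 0 := by omega
    have h5 := h.hbi0
    rw [h.hbi, h2, h4] at h5
    norm_num at h5
  have hJ1 := h.hJ1
  have hJ2 := h.hJ2
  have hJ3 := h.hJ3
  have haj := h.haj
  have hbj := h.hbj
  refine ⟨h.hm0, h.hm, h.hk, h.hl, h.hkl, ?_, ?_, hz, hw, half hz.le h.hbj2 hw.le h.hJ1,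
    half hw.le h.haj2 hz.le h.hJ2, ?_, ?_, ?_, hX, hY, hX2, hY2, ?_, ?_, ?_, ?_, ?_⟩
  · rcases h.hKL with h1 | h1
    · omega
    · exact h1.1
  · rcases h.hKL with h1 | h1
    · omega
    · have := hL0 h1.2
      omega
  · rw [hbj] at hJ1
    nlinarith
  · rw [haj] at hJ2
    nlinarith
  · rw [haj, hbj] at hJ3
    nlinarith
  · rw [h.hbi]
    have e1 : t ≤ max 1 (L : ℝ) * t := by
      have := mul_le_mul_of_nonneg_right (le_max_left 1 (L : ℝ)) h.ht
      linarith
    have e2 : (L : ℝ) * wP ≤ max 1 (L : ℝ) * wP :=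
      mul_le_mul_of_nonneg_right (le_max_right 1 (L : ℝ)) h.hwP
    linarith
  · intro c hc1 hc2
    have := lin hX h.ht h.hwP hc1 hc2 h.hbi h.hI1
    have e : (t + wP) * (s + zP) = (s + zP) * (t + wP) := by ring
    rw [e] at this
    exact this
  · intro c hc1 hc2
    exact lin hY h.hs h.hzP hc1 hc2 h.hai h.hI2
  · intro hk2 hmz
    by_contra hK
    have hK1 : (K : ℝ) ≤ 1 := by
      have : K ≤ 1 := by omega
      exact_mod_cast this
    have hk2' : (2 : ℝ) ≤ k := by exact_mod_cast hk2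
    have r1 := h.r1
    have c1 := h.c1
    have c2 := h.c2
    have hU := h.hU11
    have hP := h.hP11
    have e1 : (K : ℝ) * P11 ≤ P11 := by nlinarith
    have e2 : 2 * U11 ≤ k * U11 := mul_le_mul_of_nonneg_right hk2' hU
    have e3 : 2 * P11 ≤ k * P11 := mul_le_mul_of_nonneg_right hk2' hP
    linarith
  · intro hK2 hkm
    have hK1 : (1 : ℝ) ≤ K := by
      have : 1 ≤ K := by omega
      exact_mod_cast this
    have hr := h.hr
    have r1 := h.r1
    apply fin (m := m) (z := zj) (U11 := U11) (P11 := P11) (W10 := W10) (r := r)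
      (by exact_mod_cast hQ) hkp hK1 hz h.hP11 h.hU11 h.hW10
    · have := h.hbj2
      have := h.hbi2
      linarith
    · rw [hbj] at hr
      exact hr
    · linarith
    · exact h.q5
    · exact hkm

theorem twin5 : X_twin 5 := by
  intro m k l K L aj bj zj wj ai bi s zP t wP U11 P11 W10 V01 V11 R01 R11 p r h
  have hq : qb 5 = 9 := by decide
  have hF := facts (by rw [hq]; norm_num) h
  clear h
  generalize s + zP = X at hF
  generalize t + wP = Y at hF
  obtain ⟨hm0, hm, hk, hl, hkl, hKL, hKQ, hz, hw, hz2, hw2, hJ1, hJ2, hJ3, hX, hY, hX2, hY2, hbi,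
    hXl, hYl, hK1, hfin⟩ := hF
  rw [hq] at hm hfin
  push_cast at hm hfin hJ3
  have hm' : m ≤ 1 / 9 := by linarith
  have hP : 0 < zj * wj := mul_pos hz hw
  have hb : K = 2 ∧ bi ≤ 3 * (1 / 9 + 1 / 50) ∨ K = 3 ∧ bi ≤ 2 * (1 / 9 + 2 / 50) ∨
      K = 4 ∧ bi ≤ 2 / 9 ∨ K ≤ 1 := by
    rcases (by omega : K = 2 ∨ K = 3 ∨ K = 4 ∨ K ≤ 1) with h1 | h1 | h1 | h1
    · left
      refine ⟨h1, ?_⟩
      have hL : (L : ℝ) ≤ 3 := by
        have : L ≤ 3 := by omega
        exact_mod_cast this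
      have h2 := hXl 2 (by norm_num) (by linarith)
      have h3 := hYl 1 (by norm_num) (by rw [h1]; norm_num)
      have h4 := two5 X Y 1 2 hX hY (by linarith) (by linarith) (by norm_num) (by norm_num)
        (by norm_num) (by norm_num) (by linarith) (by linarith)
      have h5 : max 1 (L : ℝ) * Y ≤ 3 * Y :=
        mul_le_mul_of_nonneg_right (max_le (by norm_num) hL) hY
      linarith
    · right; left
      refine ⟨h1, ?_⟩
      have hL : (L : ℝ) ≤ 2 := by
        have : L ≤ 2 := by omega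
        exact_mod_cast this
      have h2 := hXl 1 (by norm_num) (by linarith)
      have h3 := hYl 2 (by norm_num) (by rw [h1]; norm_num)
      have h4 := two5 X Y 2 1 hX hY (by linarith) (by linarith) (by norm_num) (by norm_num)
        (by norm_num) (by norm_num) (by linarith) (by linarith)
      have h5 : max 1 (L : ℝ) * Y ≤ 2 * Y :=
        mul_le_mul_of_nonneg_right (max_le (by norm_num) hL) hY
      linarith
    · right; right; left
      refine ⟨h1, ?_⟩
      have hL : (L : ℝ) ≤ 1 := by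
        have : L ≤ 1 := by omega
        exact_mod_cast this
      have h5 : max 1 (L : ℝ) * Y ≤ 1 * Y :=
        mul_le_mul_of_nonneg_right (max_le (by norm_num) hL) hY
      linarith
    · right; right; right
      exact h1
  have hcase : (k = 2 ∧ l = 3) ∨ (k = 3 ∧ l = 2) := by
    by_contra hc
    have hk4 : k ≤ 4 := by omega
    have hl4 : l ≤ 4 := by omega
    interval_cases k <;> interval_cases l <;> first | omega | (push_cast at *; nlinarith)
  rcases hcase with ⟨rfl, rfl⟩ | ⟨rfl, rfl⟩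
  · push_cast at *
    have hPb := two5 zj wj 1 2 hz.le hw.le (by linarith) (by linarith) (by norm_num) (by norm_num)
      (by norm_num) (by norm_num) (by linarith) (by linarith)
    have hkm : 2 * m < 2 * zj - 3 * (zj * wj) := by linarith
    have hK2 := hK1 (by norm_num) (by linarith)
    have hf := hfin hK2 hkm
    rcases hb with ⟨rfl, h2⟩ | ⟨rfl, h2⟩ | ⟨rfl, h2⟩ | h1
    · push_cast at hf
      linarith
    · push_cast at hf
      linarith
    · push_cast at hf
      linarith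
    · omega
  · push_cast at *
    have hPb := two5 zj wj 2 1 hz.le hw.le (by linarith) (by linarith) (by norm_num) (by norm_num)
      (by norm_num) (by norm_num) (by linarith) (by linarith)
    have hkm : 3 * m < 3 * zj - 2 * (zj * wj) := by linarith
    have hK2 := hK1 (by norm_num) (by linarith)
    have hf := hfin hK2 hkm
    rcases hb with ⟨rfl, h2⟩ | ⟨rfl, h2⟩ | ⟨rfl, h2⟩ | h1
    · push_cast at hf
      linarith
    · push_cast at hf
      linarith
    · push_cast at hf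
      linarith
    · omega

theorem twin6 : X_twin 6 := by
  intro m k l K L aj bj zj wj ai bi s zP t wP U11 P11 W10 V01 V11 R01 R11 p r h
  have hq : qb 6 = 12 := by decide
  have hF := facts (by rw [hq]; norm_num) h
  clear h
  generalize s + zP = X at hF
  generalize t + wP = Y at hF
  obtain ⟨hm0, hm, hk, hl, hkl, hKL, hKQ, hz, hw, hz2, hw2, hJ1, hJ2, hJ3, hX, hY, hX2, hY2, hbi,
    hXl, hYl, hK1, hfin⟩ := hF
  rw [hq] at hm hfin
  push_cast at hm hfin hJ3
  have hm' : m ≤ 1 / 12 := by linarith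
  have hP : 0 < zj * wj := mul_pos hz hw
  have hPm : zj * wj ≤ 1 / 3 * m := by nlinarith
  have hb : K = 2 ∧ bi ≤ 4 * (1 / 12 + 23 / 2000) ∨ K = 3 ∧ bi ≤ 3 * (1 / 12 + 2 * (23 / 2000)) ∨
      K = 4 ∧ bi ≤ 1 / 3 ∨ K = 5 ∧ bi ≤ 1 / 6 ∨ K ≤ 1 := by
    rcases (by omega : K = 2 ∨ K = 3 ∨ K = 4 ∨ K = 5 ∨ K ≤ 1) with h1 | h1 | h1 | h1 | h1
    · left
      refine ⟨h1, ?_⟩
      have hL : (L : ℝ) ≤ 4 := by
        have : L ≤ 4 := by omega
        exact_mod_cast this
      have h2 := hXl 3 (by norm_num) (by linarith)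
      have h3 := hYl 1 (by norm_num) (by rw [h1]; norm_num)
      have h4 := two6 X Y 1 3 hX hY (by linarith) (by linarith) (by norm_num) (by norm_num)
        (by norm_num) (by norm_num) (by linarith) (by linarith)
      have h5 : max 1 (L : ℝ) * Y ≤ 4 * Y :=
        mul_le_mul_of_nonneg_right (max_le (by norm_num) hL) hY
      linarith
    · right; left
      refine ⟨h1, ?_⟩
      have hL : (L : ℝ) ≤ 3 := by
        have : L ≤ 3 := by omega
        exact_mod_cast this
      have h2 := hXl 2 (by norm_num) (by linarith)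
      have h3 := hYl 2 (by norm_num) (by rw [h1]; norm_num)
      have h4 := two6 X Y 2 2 hX hY (by linarith) (by linarith) (by norm_num) (by norm_num)
        (by norm_num) (by norm_num) (by linarith) (by linarith)
      have h5 : max 1 (L : ℝ) * Y ≤ 3 * Y :=
        mul_le_mul_of_nonneg_right (max_le (by norm_num) hL) hY
      linarith
    · right; right; left
      refine ⟨h1, ?_⟩
      have hL : (L : ℝ) ≤ 2 := by
        have : L ≤ 2 := by omega
        exact_mod_cast this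
      have h5 : max 1 (L : ℝ) * Y ≤ 2 * Y :=
        mul_le_mul_of_nonneg_right (max_le (by norm_num) hL) hY
      linarith
    · right; right; right; left
      refine ⟨h1, ?_⟩
      have hL : (L : ℝ) ≤ 1 := by
        have : L ≤ 1 := by omega
        exact_mod_cast this
      have h5 : max 1 (L : ℝ) * Y ≤ 1 * Y :=
        mul_le_mul_of_nonneg_right (max_le (by norm_num) hL) hY
      linarith
    · right; right; right; right
      exact h1
  have hcase : (k = 2 ∧ l = 4) ∨ (k = 3 ∧ l = 3) ∨ (k = 4 ∧ l = 2) := by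
    by_contra hc
    have hk4 : k ≤ 5 := by omega
    have hl4 : l ≤ 5 := by omega
    interval_cases k <;> interval_cases l <;> first | omega | (push_cast at *; nlinarith)
  rcases hcase with ⟨rfl, rfl⟩ | ⟨rfl, rfl⟩ | ⟨rfl, rfl⟩
  · push_cast at *
    have hPb := two6 zj wj 1 3 hz.le hw.le (by linarith) (by linarith) (by norm_num) (by norm_num)
      (by norm_num) (by norm_num) (by linarith) (by linarith)
    have hkm : 2 * m < 2 * zj - 4 * (zj * wj) := by linarith
    have hK2 := hK1 (by norm_num) (by linarith)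
    have hf := hfin hK2 hkm
    rcases hb with ⟨rfl, h2⟩ | ⟨rfl, h2⟩ | ⟨rfl, h2⟩ | ⟨rfl, h2⟩ | h1
    · push_cast at hf
      linarith
    · push_cast at hf
      linarith
    · push_cast at hf
      linarith
    · push_cast at hf
      linarith
    · omega
  · push_cast at *
    have hPb := two6 zj wj 2 2 hz.le hw.le (by linarith) (by linarith) (by norm_num) (by norm_num)
      (by norm_num) (by norm_num) (by linarith) (by linarith)
    have hkm : 3 * m < 3 * zj - 3 * (zj * wj) := by linarith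
    have hK2 := hK1 (by norm_num) (by linarith)
    have hf := hfin hK2 hkm
    rcases hb with ⟨rfl, h2⟩ | ⟨rfl, h2⟩ | ⟨rfl, h2⟩ | ⟨rfl, h2⟩ | h1
    · push_cast at hf
      linarith
    · push_cast at hf
      linarith
    · push_cast at hf
      linarith
    · push_cast at hf
      linarith
    · omega
  · push_cast at *
    have hPb := two6 zj wj 3 1 hz.le hw.le (by linarith) (by linarith) (by norm_num) (by norm_num)
      (by norm_num) (by norm_num) (by linarith) (by linarith)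
    have hkm : 4 * m < 4 * zj - 2 * (zj * wj) := by linarith
    have hK2 := hK1 (by norm_num) (by linarith)
    have hf := hfin hK2 hkm
    rcases hb with ⟨rfl, h2⟩ | ⟨rfl, h2⟩ | ⟨rfl, h2⟩ | ⟨rfl, h2⟩ | h1
    · push_cast at hf
      linarith
    · push_cast at hf
      linarith
    · push_cast at hf
      linarith
    · push_cast at hf
      linarith
    · omega

end XTWp

/-- final contradiction, `A` twin -/
theorem tX_twin (Q : ℕ) (h : Q = 5 ∨ Q = 6) : X_twin Q := by
  rcases h with rfl | rfl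
  · exact XTWp.twin5
  · exact XTWp.twin6

end R745CDX
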